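import Pool.Agent.L0h45.AV.Stm
import Pool.Agent.L0h96.LR.REG

/-!
# Project AV, module CEL: the tuples in a class and in a cell
-/

set_option autoImplicit false
set_option linter.all false

open Finset IsDedekindDomain NumberField MeasureTheory Filter Topology
open scoped Classical

namespace Pool.Agent.L0h34.AV

open Pool.Agent.N874.PP (Tup chA chB gq tau Ev)
open Pool.Agent.N922.PQ (dsc IsCub JJ Ov)
open Pool.Agent.L0h45.LR (tn Bx Cgr)
open Pool.Agent.L0h45.AV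
open Pool.Agent.L0h96.LR (sum_tn growth)

/-! ### Counting integers -/

/-- integers in a real interval -/
lemma card_ints (T : Finset ℤ) (u l : ℝ) (hl : 0 ≤ l) (hT : ∀ x ∈ T, u ≤ x ∧ (x : ℝ) ≤ u + l) :
    (T.card : ℝ) ≤ l + 1 := by
  have hsub : T ⊆ Icc ⌈u⌉ ⌊u + l⌋ := by
    intro x hx
    rw [mem_Icc]
    exact ⟨Int.ceil_le.2 (hT x hx).1, Int.le_floor.2 (hT x hx).2⟩
  have h1 := card_le_card hsub
  rw [Int.card_Icc] at h1
  have h2 : ((T.card : ℕ) : ℝ) ≤ (((⌊u + l⌋ + 1 - ⌈u⌉).toNat : ℕ) : ℝ) := by exact_mod_cast h1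
  have h3 : (((⌊u + l⌋ + 1 - ⌈u⌉).toNat : ℕ) : ℝ) = (((⌊u + l⌋ + 1 - ⌈u⌉).toNat : ℤ) : ℝ) := by
    push_cast
    rfl
  rw [h3, Int.toNat_eq_max] at h2
  push_cast at h2
  rcases le_total ((⌊u + l⌋ : ℝ) + 1 - ⌈u⌉) 0 with h4 | h4
  · rw [max_eq_right h4] at h2
    linarith
  · rw [max_eq_left h4] at h2
    have h5 := Int.floor_le (u + l)
    have h6 := Int.le_ceil u
    linarith

/-- integers in a real interval and in a residue class -/
lemma card_class (T : Finset ℤ) (u l : ℝ) (m : ℕ) (r : ℤ) (hm : 1 ≤ m) (hl : 0 ≤ l)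
    (hT : ∀ x ∈ T, u ≤ x ∧ (x : ℝ) ≤ u + l ∧ (m : ℤ) ∣ x - r) : (T.card : ℝ) ≤ l / m + 1 := by
  have hm0 : (0 : ℝ) < m := by exact_mod_cast hm
  have hmz : (m : ℤ) ≠ 0 := by omega
  have hinj : Set.InjOn (fun x : ℤ => (x - r) / m) (T : Set ℤ) := by
    intro x hx y hy hxy
    obtain ⟨s, hs⟩ := (hT x hx).2.2
    obtain ⟨t, ht⟩ := (hT y hy).2.2
    have hxy' : (x - r) / (m : ℤ) = (y - r) / m := hxy
    rw [hs, ht, Int.mul_ediv_cancel_left _ hmz, Int.mul_ediv_cancel_left _ hmz] at hxy'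
    rw [hxy'] at hs
    linarith
  rw [← card_image_of_injOn hinj]
  refine card_ints _ ((u - r) / m) (l / m) (by positivity) ?_
  intro t ht
  obtain ⟨x, hx, rfl⟩ := mem_image.1 ht
  obtain ⟨h1, h2, s, hs⟩ := hT x hx
  have h3 : (x - r) / (m : ℤ) = s := by rw [hs, Int.mul_ediv_cancel_left _ hmz]
  have h4 : ((x : ℝ) - r) = m * s := by exact_mod_cast hs
  rw [h3]
  constructor
  · rw [div_le_iff₀ hm0]
    linarith
  · rw [← add_div, le_div_iff₀ hm0]
    linarith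

/-- the sum of `dl` over an interval in a residue class -/
lemma sum_dl (T : Finset ℤ) (u l : ℝ) (M : ℕ) (β : Tup ℤ) (K : ℤ) (e : ℤ → ℤ) (hM : 1 ≤ M)
    (hM2 : 2 ∣ M) (hl : 0 ≤ l) (hβ : (2 : ℤ) ∣ β.x → ¬ (2 : ℤ) ∣ β.w)
    (hT : ∀ x ∈ T, u ≤ x ∧ (x : ℝ) ≤ u + l ∧ (M : ℤ) ∣ x - β.x)
    (he : ∀ x ∈ T, e x * M = K + x * β.w) : ∑ x ∈ T, dl x (e x) ≤ l / M + 2 := by
  have hM0 : (0 : ℝ) < M := by exact_mod_cast hM
  have hMz : (M : ℤ) ≠ 0 := by omega
  have hM2z : (2 : ℤ) ∣ M := by exact_mod_cast hM2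
  have hlM : 0 ≤ l / M := by positivity
  by_cases hx : (2 : ℤ) ∣ β.x
  · have hw := hβ hx
    have hev : ∀ x ∈ T, (2 : ℤ) ∣ x := by
      intro x hxT
      have h1 := hM2z.trans (hT x hxT).2.2
      have h2 := dvd_add h1 hx
      rwa [sub_add_cancel] at h2
    have h1 : ∀ x ∈ T, dl x (e x) = if Even (e x) then 2 else 0 := by
      intro x hxT
      unfold dl
      rw [if_neg]
      rw [Int.not_odd_iff_even, even_iff_two_dvd]
      exact hev x hxT
    rw [sum_congr rfl h1, ← sum_filter, sum_const, nsmul_eq_mul]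
    have h2 : ((T.filter fun x => Even (e x)).card : ℝ) ≤ l / ((2 * M : ℕ) : ℝ) + 1 := by
      rcases (T.filter fun x => Even (e x)).eq_empty_or_nonempty with h0 | ⟨x₀, hx₀⟩
      · rw [h0, card_empty, Nat.cast_zero]
        positivity
      · refine card_class _ u l (2 * M) x₀ (by omega) hl ?_
        intro x hx'
        obtain ⟨hxT, hxe⟩ := mem_filter.1 hx'
        obtain ⟨hxT₀, hxe₀⟩ := mem_filter.1 hx₀
        obtain ⟨g1, g2, s, hs⟩ := hT x hxT
        obtain ⟨-, -, s₀, hs₀⟩ := hT x₀ hxT₀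
        refine ⟨g1, g2, ?_⟩
        have g3 : x - x₀ = M * (s - s₀) := by linarith
        have g4 : (e x - e x₀) * M = (s - s₀) * β.w * M := by
          have := he x hxT
          have := he x₀ hxT₀
          have g5 : (e x - e x₀) * M = (x - x₀) * β.w := by linarith
          rw [g5, g3]
          ring
        have g6 : e x - e x₀ = (s - s₀) * β.w := mul_right_cancel₀ hMz g4
        have g7 : (2 : ℤ) ∣ (s - s₀) * β.w := by
          rw [← g6]
          exact dvd_sub (even_iff_two_dvd.1 hxe) (even_iff_two_dvd.1 hxe₀)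
        have g8 : (2 : ℤ) ∣ s - s₀ := (Int.prime_two.dvd_or_dvd g7).resolve_right hw
        obtain ⟨r, hr⟩ := g8
        refine ⟨r, ?_⟩
        rw [g3, hr]
        push_cast
        ring
    calc ((T.filter fun x => Even (e x)).card : ℝ) * 2 ≤ (l / ((2 * M : ℕ) : ℝ) + 1) * 2 :=
          mul_le_mul_of_nonneg_right h2 (by norm_num)
      _ = l / M + 2 := by
          push_cast
          field_simp
  · have h1 : ∀ x ∈ T, dl x (e x) = 1 := by
      intro x hxT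
      unfold dl
      rw [if_pos]
      rw [← Int.not_even_iff_odd, even_iff_two_dvd]
      intro h2
      apply hx
      have h3 := dvd_sub h2 (hM2z.trans (hT x hxT).2.2)
      rwa [sub_sub_cancel] at h3
    rw [sum_congr rfl h1, sum_const, nsmul_eq_mul, mul_one]
    have h2 := card_class T u l M β.x hM hl hT
    linarith

/-- sums over pairs -/
lemma sum_pairs (P : Finset (ℤ × ℤ)) (f : ℤ × ℤ → ℝ) (c n : ℝ) (hc : 0 ≤ c)
    (h1 : ∀ y ∈ P.image Prod.snd, ∑ x ∈ (P.filter fun q => q.2 = y).image Prod.fst, f (x, y) ≤ c)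
    (h2 : ((P.image Prod.snd).card : ℝ) ≤ n) : ∑ q ∈ P, f q ≤ n * c := by
  have h3 : ∑ q ∈ P, f q = ∑ y ∈ P.image Prod.snd,
      ∑ x ∈ (P.filter fun q => q.2 = y).image Prod.fst, f (x, y) := by
    rw [← sum_fiberwise_of_maps_to (g := Prod.snd) (t := P.image Prod.snd)
      (fun q hq => mem_image_of_mem _ hq)]
    refine sum_congr rfl fun y hy => ?_
    rw [sum_image]
    · refine sum_congr rfl fun q hq => ?_
      have := (mem_filter.1 hq).2
      rw [← this]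
    · intro q hq q' hq' hqq
      have e1 := (mem_filter.1 hq).2
      have e2 := (mem_filter.1 hq').2
      exact Prod.ext hqq (e1.trans e2.symm)
  rw [h3]
  calc ∑ y ∈ P.image Prod.snd, ∑ x ∈ (P.filter fun q => q.2 = y).image Prod.fst, f (x, y) ≤
        ∑ y ∈ P.image Prod.snd, c := sum_le_sum h1
    _ = ((P.image Prod.snd).card : ℝ) * c := by rw [sum_const, nsmul_eq_mul]
    _ ≤ n * c := mul_le_mul_of_nonneg_right h2 hc

/-! ### The asymptotics -/

lemma asym (u r m x₁ ε : ℝ) (hε : 0 < ε) : ∃ X₀ : ℝ, 0 < X₀ ∧ ∀ X ≥ X₀,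
    (u + m / X) ^ 3 * (r + m / X) / x₁ ≤ u ^ 3 * r / x₁ + ε := by
  have h0 : Tendsto (fun X : ℝ => m / X) atTop (𝓝 0) := tendsto_const_nhds.div_atTop tendsto_id
  have h1 : Tendsto (fun X : ℝ => (u + m / X) ^ 3 * (r + m / X) / x₁) atTop
      (𝓝 ((u + 0) ^ 3 * (r + 0) / x₁)) :=
    (((tendsto_const_nhds.add h0).pow 3).mul (tendsto_const_nhds.add h0)).div_const x₁
  rw [add_zero, add_zero] at h1
  have h2 := h1.eventually (eventually_le_nhds (by linarith : u ^ 3 * r / x₁ < u ^ 3 * r / x₁ + ε))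
  obtain ⟨X₀, hX₀⟩ := eventually_atTop.1 (h2.and (eventually_gt_atTop 0))
  exact ⟨max X₀ 1, by positivity, fun X hX => (hX₀ X ((le_max_left _ _).trans hX)).1⟩

lemma asym2 (u m : ℝ) (hu : 0 < u) : ∃ X₀ : ℝ, 0 < X₀ ∧ ∀ X ≥ X₀,
    (u + m / X) ^ 2 ≤ 2 * u ^ 2 := by
  have h0 : Tendsto (fun X : ℝ => m / X) atTop (𝓝 0) := tendsto_const_nhds.div_atTop tendsto_id
  have h1 : Tendsto (fun X : ℝ => (u + m / X) ^ 2) atTop (𝓝 ((u + 0) ^ 2)) :=
    (tendsto_const_nhds.add h0).pow 2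
  rw [add_zero] at h1
  have h2 := h1.eventually (eventually_le_nhds (by nlinarith : u ^ 2 < 2 * u ^ 2))
  obtain ⟨X₀, hX₀⟩ := eventually_atTop.1 (h2.and (eventually_gt_atTop 0))
  exact ⟨max X₀ 1, by positivity, fun X hX => (hX₀ X ((le_max_left _ _).trans hX)).1⟩

/-! ### One pair -/

lemma dl_nonneg (x e : ℤ) : 0 ≤ dl x e := by
  unfold dl
  split_ifs <;> norm_num

lemma dl_le (x e : ℤ) : dl x e ≤ 2 := by
  unfold dl
  split_ifs <;> norm_num

/-- the main term for one pair -/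
lemma main_pair {M g h k : ℕ} {σ x₁ X x δ : ℝ} (hM : 1 ≤ M) (hg : 1 ≤ g) (hσ : 0 < σ)
    (hx₁ : 0 < x₁) (hX : 0 < X) (hx : x₁ * X ≤ x) (hh : (h : ℝ) ≤ σ * X + 1)
    (hk : (k : ℝ) ≤ σ * X + 1) (hδ : 0 ≤ δ) (hδ2 : δ ≤ 2) :
    δ * rg g * ((h : ℝ) / M + 1 + M * g) * ((k : ℝ) / M + 1) / x ≤
      (σ / M * X + (1 / M + 1 + M)) ^ 2 / (x₁ * X) * δ +
      24 * (σ / M * X + (1 / M + 1 + M)) ^ 2 / (x₁ * X) *
        (if 1 < g then (tn g : ℝ) * √(g : ℝ) * (1 + (M : ℝ) ^ 2 / σ * g / X) else 0) := by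
  have hM0 : (0 : ℝ) < M := by exact_mod_cast hM
  have hxX : 0 < x₁ * X := mul_pos hx₁ hX
  have hx0 : 0 < x := lt_of_lt_of_le hxX hx
  obtain ⟨V, hV⟩ : ∃ V : ℝ, V = σ / M * X + (1 / M + 1 + M) := ⟨_, rfl⟩
  rw [← hV]
  have hV0 : 0 < V := by rw [hV]; positivity
  have h1 : (h : ℝ) / M ≤ σ / M * X + 1 / M := by
    rw [div_le_iff₀ hM0]
    calc (h : ℝ) ≤ σ * X + 1 := hh
      _ = (σ / M * X + 1 / M) * M := by field_simp
  have h2 : (k : ℝ) / M ≤ σ / M * X + 1 / M := by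
    rw [div_le_iff₀ hM0]
    calc (k : ℝ) ≤ σ * X + 1 := hk
      _ = (σ / M * X + 1 / M) * M := by field_simp
  have h3 : (k : ℝ) / M + 1 ≤ V := by rw [hV]; linarith
  have h30 : 0 ≤ (k : ℝ) / M + 1 := by positivity
  rcases Nat.lt_or_ge 1 g with hg1 | hg1
  · rw [if_pos hg1]
    have hrg : rg g = 12 * tn g * √(g : ℝ) := by unfold rg; rw [if_neg (by omega)]
    rw [hrg]
    have h4 : (h : ℝ) / M + 1 + M * g ≤ V * (1 + (M : ℝ) ^ 2 / σ * g / X) := by
      have h5 : (M : ℝ) * g ≤ V * ((M : ℝ) ^ 2 / σ * g / X) := by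
        calc (M : ℝ) * g = (σ / M * X) * ((M : ℝ) ^ 2 / σ * g / X) := by field_simp
          _ ≤ V * ((M : ℝ) ^ 2 / σ * g / X) := by
              refine mul_le_mul_of_nonneg_right ?_ (by positivity)
              rw [hV]
              have : (0 : ℝ) ≤ 1 / M + 1 + M := by positivity
              linarith
      have h6 : (h : ℝ) / M + 1 ≤ V := by rw [hV]; linarith
      linarith
    have h7 : 0 ≤ V ^ 2 / (x₁ * X) * δ := by positivity
    have h8 : δ * (12 * tn g * √(g : ℝ)) * ((h : ℝ) / M + 1 + M * g) * ((k : ℝ) / M + 1) / x ≤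
        2 * (12 * tn g * √(g : ℝ)) * (V * (1 + (M : ℝ) ^ 2 / σ * g / X)) * V / (x₁ * X) := by
      gcongr
    have h9 : 2 * (12 * tn g * √(g : ℝ)) * (V * (1 + (M : ℝ) ^ 2 / σ * g / X)) * V / (x₁ * X) =
        24 * V ^ 2 / (x₁ * X) * ((tn g : ℝ) * √(g : ℝ) * (1 + (M : ℝ) ^ 2 / σ * g / X)) := by ring
    rw [h9] at h8
    linarith
  · have hg' : g = 1 := by omega
    rw [if_neg (by omega), mul_zero, add_zero]
    have hrg : rg g = 1 := by unfold rg; rw [if_pos hg']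
    rw [hrg, mul_one]
    have h4 : (h : ℝ) / M + 1 + M * g ≤ V := by
      rw [hg', hV]
      push_cast
      linarith
    have h8 : δ * ((h : ℝ) / M + 1 + M * g) * ((k : ℝ) / M + 1) / x ≤ δ * V * V / (x₁ * X) := by
      gcongr
    calc _ ≤ _ := h8
      _ = V ^ 2 / (x₁ * X) * δ := by ring

/-- the error term for one pair -/
lemma err_pair {M : ℕ} {L x₁ X x t : ℝ} (hx₁ : 0 < x₁) (hX : 0 < X) (hL : 1 ≤ L)
    (hx : x₁ * X ≤ x) (ht : 0 ≤ t) :
    4 * (L / √x) * √(3 * M : ℝ) * (1 + Real.log L) ^ 2 * t ≤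
      4 * (L / √(x₁ * X)) * √(3 * M : ℝ) * (1 + Real.log L) ^ 2 * t := by
  have h0 : 0 < √(x₁ * X) := Real.sqrt_pos.2 (mul_pos hx₁ hX)
  have h1 : √(x₁ * X) ≤ √x := Real.sqrt_le_sqrt hx
  have hlog : 0 ≤ Real.log L := Real.log_nonneg hL
  gcongr

/-! ### The cell -/

theorem t_CEL : S_SPL → S_FBS → S_WS → S_CEL := by
  rintro hSPL hFBS ⟨ηW, hη0, hηt, hWS⟩
  refine ⟨fun Z => 48 * ηW Z, fun Z => by have := hη0 Z; positivity, ?_, ?_⟩
  · have := hηt.const_mul 48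
    rwa [mul_zero] at this
  intro Z M hMd a κ x₁ ρ σ ε hκ hx₁ hρ hσ hε
  have hM1 := hMd.pos
  have hM0 : (0 : ℝ) < M := by exact_mod_cast hM1
  have hMr : (1 : ℝ) ≤ M := by exact_mod_cast hM1
  have hMz : (M : ℤ) ≠ 0 := by omega
  obtain ⟨u, hu⟩ : ∃ u : ℝ, u = σ / M := ⟨_, rfl⟩
  obtain ⟨r, hr⟩ : ∃ r : ℝ, r = ρ / M := ⟨_, rfl⟩
  obtain ⟨m, hm⟩ : ∃ m : ℝ, m = 1 / M + 1 + M := ⟨_, rfl⟩
  have hu0 : 0 < u := by rw [hu]; positivity
  have hr0 : 0 < r := by rw [hr]; positivity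
  have hm2 : 2 ≤ m := by
    have : (0 : ℝ) ≤ 1 / M := by positivity
    rw [hm]
    linarith
  obtain ⟨ε', hε'⟩ : ∃ ε' : ℝ, ε' = ε * x₁ * M ^ 2 / (192 * σ ^ 2) := ⟨_, rfl⟩
  obtain ⟨lam, hlam⟩ : ∃ lam : ℝ, lam = x₁ + ρ + σ + 3 := ⟨_, rfl⟩
  have hlam3 : 3 ≤ lam := by rw [hlam]; linarith
  obtain ⟨K0, hK0⟩ : ∃ K0 : ℝ, K0 = 4 * √(3 * M : ℝ) * √(lam / x₁) := ⟨_, rfl⟩
  have hK00 : 0 ≤ K0 := by rw [hK0]; positivity
  obtain ⟨XW, hXW⟩ := hWS Z M hMd (κ + σ + x₁ + ρ) ρ σ ((M : ℝ) ^ 2 / σ) ε' (by positivity) hρ hσ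
    (by positivity) (by rw [hε']; positivity)
  obtain ⟨XA, hXA0, hXA⟩ := asym u r m x₁ (ε / 4) (by positivity)
  obtain ⟨XB, hXB0, hXB⟩ := asym2 u m hu0
  obtain ⟨XG, hXG1, hXG⟩ := growth K0 (ε / (4 * lam ^ 3)) hK00 (by positivity)
  refine ⟨max (max XW XA) (max XB (max XG 1)), ?_⟩
  intro X hX y₁ c₁ z₁ hy₁ hc₁ hz₁ β hβ S hS
  have hXW' : XW ≤ X := ((le_max_left _ _).trans (le_max_left _ _)).trans hX
  have hXA' : XA ≤ X := ((le_max_right _ _).trans (le_max_left _ _)).trans hX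
  have hXB' : XB ≤ X := ((le_max_left _ _).trans (le_max_right _ _)).trans hX
  have hXG' : XG ≤ X := ((le_max_left _ _).trans ((le_max_right _ _).trans (le_max_right _ _))).trans hX
  have hX1 : 1 ≤ X := ((le_max_right _ _).trans ((le_max_right _ _).trans (le_max_right _ _))).trans hX
  have hX0 : 0 < X := by linarith
  have hxX : 0 < x₁ * X := mul_pos hx₁ hX0
  have hκX : 0 < κ * X := mul_pos hκ hX0
  have hσX' : 0 < σ * X := mul_pos hσ hX0
  have hρX : 0 < ρ * X := mul_pos hρ hX0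
  -- the pairs
  obtain ⟨P, hP⟩ : ∃ P, P = S.image fun B => (B.x, B.y) := ⟨_, rfl⟩
  have hPm : ∀ q ∈ P, x₁ * X ≤ (q.1 : ℝ) ∧ (q.1 : ℝ) ≤ (x₁ + ρ) * X ∧ y₁ * X ≤ (q.2 : ℝ) ∧
      (q.2 : ℝ) ≤ (y₁ + σ) * X ∧ q.2 ≠ 0 ∧ (M : ℤ) ∣ q.1 - β.x ∧ (M : ℤ) ∣ q.2 - β.y := by
    intro q hq
    rw [hP] at hq
    obtain ⟨B, hB, rfl⟩ := mem_image.1 hq
    obtain ⟨h1, h2, h3, h4, h5, h6, h7, -⟩ := hS B hB
    exact ⟨h4, h5, h6, h7, h1, h3.x, h3.y⟩
  have hPx0 : ∀ q ∈ P, 0 < (q.1 : ℝ) := fun q hq => lt_of_lt_of_le hxX (hPm q hq).1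
  have hPx : ∀ q ∈ P, q.1 ≠ 0 := by
    intro q hq h
    have := hPx0 q hq
    rw [h] at this
    simp at this
  -- the function `e`
  obtain ⟨e, he'⟩ : ∃ e : ℤ × ℤ → ℤ, e = fun q =>
    (3 * β.c ^ 2 + 2 * q.2 * β.z + q.1 * β.w + a) / (M : ℤ) := ⟨_, rfl⟩
  have he : ∀ q ∈ P, e q * M = 3 * β.c ^ 2 + 2 * q.2 * β.z + q.1 * β.w + a := by
    intro q hq
    rw [he']
    refine Int.ediv_mul_cancel ?_
    obtain ⟨-, -, -, -, -, h1, h2⟩ := hPm q hq
    have h3 := hβ.A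
    have h4 : 3 * β.c ^ 2 + 2 * q.2 * β.z + q.1 * β.w + a =
        (q.2 - β.y) * (2 * β.z) + (q.1 - β.x) * β.w - (chA β - a) := by
      unfold chA
      ring
    rw [h4]
    exact dvd_sub (dvd_add (h2.mul_right _) (h1.mul_right _)) h3
  -- the greatest common divisors
  have hgex : ∀ q : ℤ × ℤ, ∃ g₀ g : ℕ, q ∈ P → Int.gcd q.1 (2 * q.2) = g₀ * g ∧ g₀ ∣ M ∧
      Nat.Coprime g M := by
    intro q
    by_cases hq : q ∈ P
    · obtain ⟨-, -, -, -, -, h1, h2⟩ := hPm q hq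
      obtain ⟨g₀, g, h3⟩ := hSPL M a β q.1 q.2 hM1 hMd.even hβ h1 h2 (hPx q hq)
      exact ⟨g₀, g, fun _ => h3⟩
    · exact ⟨0, 0, fun h => absurd h hq⟩
  choose g₀ g hg using hgex
  have hg1 : ∀ q ∈ P, 1 ≤ g q := by
    intro q hq
    by_contra h
    have h0 : g q = 0 := by omega
    have h1 := (hg q hq).1
    rw [h0, mul_zero, Int.gcd_eq_zero_iff] at h1
    exact hPx q hq h1.1
  have hgd : ∀ q ∈ P, (g q : ℤ) ∣ q.1 ∧ (g q : ℤ) ∣ 2 * q.2 := by
    intro q hq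
    have h1 : (g q : ℤ) ∣ (Int.gcd q.1 (2 * q.2) : ℤ) := by
      rw [(hg q hq).1]
      push_cast
      exact dvd_mul_left _ _
    exact ⟨h1.trans (Int.gcd_dvd_left _ _), h1.trans (Int.gcd_dvd_right _ _)⟩
  -- the parameters of FBS
  obtain ⟨L, hL⟩ : ∃ L : ℝ, L = lam * X := ⟨_, rfl⟩
  have hLe : L = x₁ * X + ρ * X + σ * X + 3 * X := by rw [hL, hlam]; ring
  have hLX : X ≤ L := by rw [hLe]; linarith only [hxX, hρX, hσX', hX1]
  have hL3 : 3 ≤ L := by rw [hLe]; linarith only [hxX, hρX, hσX', hX1]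
  obtain ⟨h, hh⟩ : ∃ h : ℕ, h = ⌊σ * X⌋₊ + 1 := ⟨_, rfl⟩
  have hσX : 0 ≤ σ * X := by positivity
  have hhle : (h : ℝ) ≤ σ * X + 1 := by
    rw [hh]
    push_cast
    have := Nat.floor_le hσX
    linarith
  have hint : ∀ (v : ℝ) (n : ℤ), v * X ≤ n → (n : ℝ) ≤ (v + σ) * X →
      ⌈v * X⌉ - 1 < n ∧ n ≤ ⌈v * X⌉ - 1 + h := by
    intro v n h1 h2
    have h3 : ⌈v * X⌉ ≤ n := Int.ceil_le.2 h1
    refine ⟨by omega, ?_⟩
    have h4 : ((n - ⌈v * X⌉ : ℤ) : ℝ) ≤ σ * X := by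
      push_cast
      have := Int.le_ceil (v * X)
      linarith
    have h5 : n - ⌈v * X⌉ ≤ ⌊σ * X⌋ := Int.le_floor.2 h4
    have h6 : ((⌊σ * X⌋₊ : ℕ) : ℤ) = ⌊σ * X⌋ := Int.natCast_floor_eq_floor hσX
    rw [hh]
    push_cast
    omega
  -- the bound for one pair
  obtain ⟨D, hD⟩ : ∃ D : ℝ, D = (σ / M * X + (1 / M + 1 + M)) ^ 2 / (x₁ * X) := ⟨_, rfl⟩
  obtain ⟨E, hE⟩ : ∃ E : ℝ, E = 24 * (σ / M * X + (1 / M + 1 + M)) ^ 2 / (x₁ * X) := ⟨_, rfl⟩
  obtain ⟨F, hF⟩ : ∃ F : ℝ, F = 4 * (L / √(x₁ * X)) * √(3 * M : ℝ) * (1 + Real.log L) ^ 2 :=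
    ⟨_, rfl⟩
  have hD0 : 0 ≤ D := by rw [hD]; positivity
  have hE0 : 0 ≤ E := by rw [hE]; positivity
  have hF0 : 0 ≤ F := by
    rw [hF]
    have : 0 ≤ Real.log L := Real.log_nonneg (by linarith)
    have : 0 ≤ L := by linarith
    positivity
  have hpair : ∀ q ∈ P, ((S.filter fun B => (B.x, B.y) = q).card : ℝ) ≤ D * dl q.1 (e q) +
      E * (if 1 < g q then (tn (g q) : ℝ) * √(g q : ℝ) * (1 + (M : ℝ) ^ 2 / σ * g q / X) else 0) +
      F * (tn q.1.natAbs : ℝ) := by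
    intro q hq
    obtain ⟨h1, h2, h3, h4, h5, h6, h7⟩ := hPm q hq
    obtain ⟨k1, k2, k3⟩ := hg q hq
    have hxabs : |(q.1 : ℝ)| = q.1 := abs_of_pos (hPx0 q hq)
    have hxL : (x₁ + ρ) * X ≤ L := by
      rw [hLe, add_mul]
      linarith only [hσX', hX1]
    have hfbs := hFBS L M (g₀ q) (g q) h h a β q.1 q.2 (e q) (⌈c₁ * X⌉ - 1) (⌈z₁ * X⌉ - 1)
      (by linarith) hM1 hMd.even hβ h6 h7 (hPx q hq) k1 k2 k3 (he q hq) (by rw [hxabs]; linarith)
      (by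
        refine hhle.trans ?_
        rw [hLe]
        linarith only [hxX, hρX, hX1]) (S.filter fun B => (B.x, B.y) = q) (by
          intro B hB
          obtain ⟨hBS, hBq⟩ := mem_filter.1 hB
          obtain ⟨-, g2, g3, -, -, -, -, g8, g9, g10, g11⟩ := hS B hBS
          obtain ⟨i1, i2⟩ := hint c₁ B.c g8 g9
          obtain ⟨i3, i4⟩ := hint z₁ B.z g10 g11
          exact ⟨congrArg Prod.fst hBq, congrArg Prod.snd hBq, g2, g3, i1, i2, i3, i4⟩)
    rw [hxabs] at hfbs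
    have m1 := main_pair (M := M) (g := g q) (h := h) (k := h) (δ := dl q.1 (e q)) hM1 (hg1 q hq) hσ
      hx₁ hX0 h1 hhle hhle (dl_nonneg _ _) (dl_le _ _)
    have m2 := err_pair (M := M) (L := L) (t := (tn q.1.natAbs : ℝ)) hx₁ hX0 (by linarith) h1
      (Nat.cast_nonneg _)
    rw [← hD, ← hE] at m1
    rw [← hF] at m2
    linarith
  -- the sum over the pairs
  have hcard : (S.card : ℝ) = ∑ q ∈ P, ((S.filter fun B => (B.x, B.y) = q).card : ℝ) := by
    rw [hP, ← Nat.cast_sum]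
    congr 1
    exact card_eq_sum_card_image _ _
  have hny : ((P.image Prod.snd).card : ℝ) ≤ σ * X / M + 1 := by
    refine card_class _ (y₁ * X) (σ * X) M β.y hM1 hσX ?_
    intro y hy
    obtain ⟨q, hq, rfl⟩ := mem_image.1 hy
    obtain ⟨-, -, h3, h4, -, -, h7⟩ := hPm q hq
    exact ⟨h3, by linarith, h7⟩
  have hmemP : ∀ y x, x ∈ (P.filter fun q => q.2 = y).image Prod.fst → (x, y) ∈ P := by
    intro y x hx
    obtain ⟨q, hq, rfl⟩ := mem_image.1 hx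
    obtain ⟨h1, h2⟩ := mem_filter.1 hq
    rw [← h2]
    exact h1
  have S1 : ∑ q ∈ P, dl q.1 (e q) ≤ (σ * X / M + 1) * (ρ * X / M + 2) := by
    refine sum_pairs P (fun q => dl q.1 (e q)) _ _ (by positivity) ?_ hny
    intro y hy
    refine sum_dl _ (x₁ * X) (ρ * X) M β (3 * β.c ^ 2 + 2 * y * β.z + a) (fun x => e (x, y)) hM1
      hMd.even (by positivity) (fun h => (hβ.two h).2) ?_ ?_
    · intro x hx
      obtain ⟨h1, h2, -, -, -, h6, -⟩ := hPm _ (hmemP y x hx)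
      exact ⟨h1, by simp only at h2; linarith, h6⟩
    · intro x hx
      have := he _ (hmemP y x hx)
      simp only at this ⊢
      rw [this]
      ring
  have S2 : ∑ q ∈ P, (if 1 < g q then (tn (g q) : ℝ) * √(g q : ℝ) *
      (1 + (M : ℝ) ^ 2 / σ * g q / X) else 0) ≤ (ηW Z * (ρ * σ) / (M : ℝ) ^ 2 + ε') * X ^ 2 := by
    rw [← sum_filter]
    refine hXW X hXW' (x₁ * X) (y₁ * X) β.x β.y (P.filter fun q => 1 < g q) g ?_
    intro q hq
    obtain ⟨hqP, hq1⟩ := mem_filter.1 hq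
    obtain ⟨h1, h2, h3, h4, h5, h6, h7⟩ := hPm q hqP
    obtain ⟨k1, k2⟩ := hgd q hqP
    have a1 := abs_le.1 hy₁
    refine ⟨hPx q hqP, h5, ?_, ?_, h1, by linarith, h3, by linarith, h6, h7, hq1, (hg q hqP).2.2,
      k1, k2⟩
    · rw [abs_of_pos (hPx0 q hqP)]
      rw [add_mul] at h2
      rw [add_mul, add_mul, add_mul]
      linarith only [h2, hκX, hσX']
    · have b1 : -κ * X ≤ y₁ * X := mul_le_mul_of_nonneg_right a1.1 hX0.le
      have b2 : y₁ * X ≤ κ * X := mul_le_mul_of_nonneg_right a1.2 hX0.le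
      rw [add_mul] at h4
      rw [abs_le, add_mul, add_mul, add_mul]
      constructor
      · linarith only [h3, b1, hκX, hσX', hxX, hρX]
      · linarith only [h4, b2, hκX, hσX', hxX, hρX]
  obtain ⟨N, hN⟩ : ∃ N : ℕ, N = ⌊(x₁ + ρ) * X⌋₊ := ⟨_, rfl⟩
  have S3 : ∑ q ∈ P, (tn q.1.natAbs : ℝ) ≤ (σ * X / M + 1) * (N * (1 + Real.log N)) := by
    have hN0 : 0 ≤ (N : ℝ) * (1 + Real.log N) := by
      have := Real.log_natCast_nonneg N
      positivity
    refine sum_pairs P (fun q => (tn q.1.natAbs : ℝ)) _ _ hN0 ?_ hny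
    intro y hy
    have hinj : Set.InjOn Int.natAbs
        (((P.filter fun q => q.2 = y).image Prod.fst : Finset ℤ) : Set ℤ) := by
      intro x hx x' hx' hxx
      have h1 := hPx0 _ (hmemP y x hx)
      have h2 := hPx0 _ (hmemP y x' hx')
      have h1' : 0 < x := by exact_mod_cast h1
      have h2' : 0 < x' := by exact_mod_cast h2
      omega
    rw [← sum_image (f := fun n : ℕ => (tn n : ℝ)) (g := Int.natAbs) hinj]
    refine (sum_le_sum_of_subset_of_nonneg ?_ fun _ _ _ => Nat.cast_nonneg _).trans (sum_tn N)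
    intro n hn
    obtain ⟨x, hx, rfl⟩ := mem_image.1 hn
    have h1 := hPx0 _ (hmemP y x hx)
    have h2 := (hPm _ (hmemP y x hx)).2.1
    have h1' : 0 < x := by exact_mod_cast h1
    rw [mem_Icc]
    refine ⟨by omega, ?_⟩
    rw [hN]
    refine Nat.le_floor ?_
    have h3 : ((x.natAbs : ℕ) : ℝ) = x := by
      rw [Nat.cast_natAbs, Int.cast_abs]
      exact abs_of_pos h1
    rw [h3]
    exact h2
  have htot : (S.card : ℝ) ≤ D * ((σ * X / M + 1) * (ρ * X / M + 2)) +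
      E * ((ηW Z * (ρ * σ) / (M : ℝ) ^ 2 + ε') * X ^ 2) +
      F * ((σ * X / M + 1) * (N * (1 + Real.log N))) := by
    rw [hcard]
    refine (sum_le_sum hpair).trans ?_
    rw [sum_add_distrib, sum_add_distrib, ← mul_sum, ← mul_sum, ← mul_sum]
    have t1 := mul_le_mul_of_nonneg_left S1 hD0
    have t2 := mul_le_mul_of_nonneg_left S2 hE0
    have t3 := mul_le_mul_of_nonneg_left S3 hF0
    linarith
  -- the three terms
  have hX3 : 0 < X ^ 3 := by positivity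
  have T1 : D * ((σ * X / M + 1) * (ρ * X / M + 2)) ≤ (u ^ 3 * r / x₁ + ε / 4) * X ^ 3 := by
    have hV : σ / M * X + (1 / M + 1 + M) = (u + m / X) * X := by
      rw [← hu, ← hm]
      field_simp
    have hq : 0 ≤ m / X := by positivity
    have e1 : σ * X / M + 1 ≤ (u + m / X) * X := by
      rw [← hV, hm.symm]
      have : σ * X / M = σ / M * X := by ring
      rw [this]
      linarith
    have e2 : ρ * X / M + 2 ≤ (r + m / X) * X := by
      have : (r + m / X) * X = ρ * X / M + m := by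
        rw [hr]
        field_simp
      rw [this]
      linarith
    have e3 := hXA X hXA'
    calc D * ((σ * X / M + 1) * (ρ * X / M + 2)) ≤
          D * (((u + m / X) * X) * ((r + m / X) * X)) := by gcongr
      _ = (u + m / X) ^ 3 * (r + m / X) / x₁ * X ^ 3 := by
          rw [hD, hV]
          field_simp
      _ ≤ (u ^ 3 * r / x₁ + ε / 4) * X ^ 3 := mul_le_mul_of_nonneg_right e3 hX3.le
  have hηZ := hη0 Z
  have T2 : E * ((ηW Z * (ρ * σ) / (M : ℝ) ^ 2 + ε') * X ^ 2) ≤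
      (48 * ηW Z * (u ^ 3 * r / x₁) + ε / 4) * X ^ 3 := by
    have hV : σ / M * X + (1 / M + 1 + M) = (u + m / X) * X := by
      rw [← hu, ← hm]
      field_simp
    have e1 : E ≤ 48 * u ^ 2 / x₁ * X := by
      have e2 := hXB X hXB'
      calc E = 24 * (u + m / X) ^ 2 / x₁ * X := by
            rw [hE, hV]
            field_simp
        _ ≤ 24 * (2 * u ^ 2) / x₁ * X := by gcongr
        _ = 48 * u ^ 2 / x₁ * X := by ring
    have e3 : 0 ≤ (ηW Z * (ρ * σ) / (M : ℝ) ^ 2 + ε') * X ^ 2 := by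
      have : 0 < ε' := by rw [hε']; positivity
      positivity
    refine (mul_le_mul_of_nonneg_right e1 e3).trans (le_of_eq ?_)
    rw [hε', hu, hr]
    field_simp
    ring
  have T3 : F * ((σ * X / M + 1) * (N * (1 + Real.log N))) ≤ ε / 4 * X ^ 3 := by
    have hL0 : 0 < L := by linarith
    have hN1 : (N : ℝ) ≤ L := by
      rw [hN]
      refine (Nat.floor_le (by positivity)).trans ?_
      rw [hLe, add_mul]
      linarith only [hσX', hX1]
    obtain ⟨lg, hlg⟩ : ∃ lg : ℝ, lg = 1 + Real.log (3 * L) := ⟨_, rfl⟩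
    have hlgL : 1 + Real.log L ≤ lg := by
      rw [hlg]
      have := Real.log_le_log hL0 (by linarith : L ≤ 3 * L)
      linarith
    have hlogL : 0 ≤ Real.log L := Real.log_nonneg (by linarith)
    have hlgN : 1 + Real.log N ≤ lg := by
      refine le_trans ?_ hlgL
      rcases Nat.eq_zero_or_pos N with h0 | h0
      · rw [h0]
        simp
        linarith
      · have := Real.log_le_log (by exact_mod_cast h0) hN1
        linarith
    have hlg0 : 0 ≤ lg := by linarith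
    have hlogN : 0 ≤ 1 + Real.log N := by
      have := Real.log_natCast_nonneg N
      linarith
    have e1 : σ * X / M + 1 ≤ L := by
      have : σ * X / M ≤ σ * X := div_le_self hσX hMr
      rw [hLe]
      linarith only [this, hxX, hρX, hX1]
    have e2 : L / √(x₁ * X) = √(lam / x₁) * √L := by
      have s1 : x₁ * X = L * (x₁ / lam) := by
        rw [hL]
        field_simp
      have s2 : √(x₁ * X) = √L * √(x₁ / lam) := by
        rw [s1, Real.sqrt_mul hL0.le]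
      have s3 : √(lam / x₁) * √(x₁ / lam) = 1 := by
        rw [← Real.sqrt_mul (by positivity)]
        have : lam / x₁ * (x₁ / lam) = 1 := by field_simp
        rw [this, Real.sqrt_one]
      have s4 : 0 < √(x₁ / lam) := Real.sqrt_pos.2 (by positivity)
      have s5 : 0 < √L := Real.sqrt_pos.2 hL0
      have s6 : √L * √L = L := Real.mul_self_sqrt hL0.le
      rw [s2, div_eq_iff (by positivity)]
      calc L = √L * √L * 1 := by rw [s6, mul_one]
        _ = √L * √L * (√(lam / x₁) * √(x₁ / lam)) := by rw [s3]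
        _ = _ := by ring
    have e3 := hXG L (hXG'.trans hLX)
    calc F * ((σ * X / M + 1) * (N * (1 + Real.log N))) ≤
          (4 * (√(lam / x₁) * √L) * √(3 * M : ℝ) * lg ^ 2) * (L * (L * lg)) := by
            rw [hF, e2]
            gcongr
      _ = L ^ 2 * (K0 * (√L * lg ^ 3)) := by rw [hK0]; ring
      _ ≤ L ^ 2 * (ε / (4 * lam ^ 3) * L) := by
            refine mul_le_mul_of_nonneg_left ?_ (by positivity)
            rw [hlg]
            exact e3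
      _ = ε / 4 * X ^ 3 := by
            rw [hL]
            field_simp
  calc (S.card : ℝ) ≤ _ := htot
    _ ≤ (u ^ 3 * r / x₁ + ε / 4) * X ^ 3 + (48 * ηW Z * (u ^ 3 * r / x₁) + ε / 4) * X ^ 3 +
        ε / 4 * X ^ 3 := by linarith
    _ = ((1 + 48 * ηW Z) * (u ^ 3 * r / x₁) + 3 * ε / 4) * X ^ 3 := by ring
    _ ≤ ((1 + 48 * ηW Z) * (ρ * σ ^ 3) / (x₁ * (M : ℝ) ^ 4) + ε) * X ^ 3 := by
        refine mul_le_mul_of_nonneg_right ?_ hX3.le
        have e1 : (1 + 48 * ηW Z) * (u ^ 3 * r / x₁) =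
            (1 + 48 * ηW Z) * (ρ * σ ^ 3) / (x₁ * (M : ℝ) ^ 4) := by
          rw [hu, hr]
          field_simp
        rw [e1]
        linarith

end Pool.Agent.L0h34.AV
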