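import Pool.Agent.L0h45.AV.Stm4

/-!
# Project AV, module IRRe: the cubic has no rational zero
-/

set_option autoImplicit false
set_option linter.all false

open Polynomial

namespace Pool.Agent.L0h34.AV

open Pool.Agent.N922.PQ (dsc)
open Pool.Agent.L0h45.AV

theorem t_IRRe : S_IRRe := by
  intro a b hpos hsq t h
  have h1 : IsIntegral ℤ t := by
    refine ⟨X ^ 3 + C a * X + C b, by monicity!, ?_⟩
    simp only [eval₂_add, eval₂_mul, eval₂_pow, eval₂_X, eval₂_C]
    simpa using h
  obtain ⟨z, rfl⟩ := IsIntegrallyClosed.isIntegral_iff.mp h1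
  have h2 : z ^ 3 + a * z + b = 0 := by
    have h3 : ((z ^ 3 + a * z + b : ℤ) : ℚ) = 0 := by
      push_cast
      simpa using h
    exact_mod_cast h3
  have hb : b = -z ^ 3 - a * z := by linarith
  have hd : dsc a b = (4 * a + 3 * z ^ 2) * ((a + 3 * z ^ 2) * (a + 3 * z ^ 2)) := by
    rw [hb]
    unfold dsc
    ring
  have hu : IsUnit (a + 3 * z ^ 2) := hsq _ (by rw [hd]; exact dvd_mul_left _ _)
  rw [Int.isUnit_iff] at hu
  have hz : 0 ≤ z ^ 2 := sq_nonneg z
  rcases hu with hu | hu
  · rw [hu] at hd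
    have hd' : dsc a b = 4 - 9 * z ^ 2 := by
      rw [hd]
      linarith
    have hz0 : z = 0 := by
      by_contra hne
      have : 1 ≤ z ^ 2 := by
        have := sq_pos_of_ne_zero hne
        linarith
      linarith
    subst hz0
    have h4 : dsc a b = 4 := by rw [hd']; ring
    have h5 : IsUnit (2 : ℤ) := hsq 2 (by rw [h4]; norm_num)
    rw [Int.isUnit_iff] at h5
    omega
  · rw [hu] at hd
    have hd' : dsc a b = -4 - 9 * z ^ 2 := by
      rw [hd]
      linarith
    linarith

end Pool.Agent.L0h34.AV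

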